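import Pool.Agent.H73.AX.Flat
import Pool.Agent.H27.AX.Evo
import Pool.Agent.H73.AW.HamX

/-! Circuits. -/

namespace Pool.Agent.H73.AX

open Finset Matrix Pool.Agent.H73.QA Pool.Agent.H73.AD Pool.Agent.H73.AW

set_option linter.unusedSectionVars false

variable {n k m p q : ℕ} {Y : Type} [Fintype Y] [DecidableEq Y] {r : ℕ}

theorem lin_sub (A B : Op n Y) : lin (A - B) = lin A - lin B := by
  unfold lin
  exact map_sub _ A B

theorem NR_nonneg (G : Fin m → Clause n k) (δ : ℝ) (r : ℕ) (w : Fin p → List (Letter n m Y))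
    (z : Cube n) (u : Sp n Y) : 0 ≤ NR G δ r w z u :=
  sum_nonneg fun _ _ => sum_nonneg fun _ _ => norm_nonneg _

theorem near_drop_le_NR (G : Fin m → Clause n k) (δ : ℝ) (r : ℕ)
    (w : Fin p → List (Letter n m Y)) (z : Cube n) (u : Sp n Y) (x : Option (Fin p ⊕ Fin p))
    {i : ℕ} (hi : i ≤ r) :
    ‖nearP (hball δ z) (lin (wd (Letter.flt G δ z) ((aw w x).drop i)) u)‖ ≤ NR G δ r w z u := by
  have h1 := single_le_sum (f := fun i => ‖nearP (hball δ z)
    (lin (wd (Letter.flt G δ z) ((aw w x).drop i)) u)‖) (s := range (r + 1))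
    (fun _ _ => norm_nonneg _) (mem_range.2 (Nat.lt_succ_of_le hi))
  have h2 := single_le_sum (f := fun x => ∑ i ∈ range (r + 1), ‖nearP (hball δ z)
    (lin (wd (Letter.flt G δ z) ((aw w x).drop i)) u)‖) (s := univ)
    (fun _ _ => sum_nonneg fun _ _ => norm_nonneg _) (mem_univ x)
  exact h1.trans h2

theorem near_le_NR (G : Fin m → Clause n k) (δ : ℝ) (r : ℕ) (w : Fin p → List (Letter n m Y))
    (z : Cube n) (u : Sp n Y) : ‖nearP (hball δ z) u‖ ≤ NR G δ r w z u := by
  have h1 := near_drop_le_NR G δ r w z u none (i := 0) (Nat.zero_le r)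
  have h2 : lin (wd (Letter.flt G δ z) ((aw w none).drop 0)) u = u := lin_wd_nil _ u
  rwa [h2] at h1

theorem aw_length {w : Fin p → List (Letter n m Y)} (hr : ∀ i, (w i).length ≤ r)
    (x : Option (Fin p ⊕ Fin p)) : (aw w x).length ≤ r := by
  rcases x with _ | x | x
  · exact Nat.zero_le r
  · exact hr x
  · show (adjW (w x)).length ≤ r
    rw [adjW_length]
    exact hr x

theorem aw_ok {w : Fin p → List (Letter n m Y)} (hw : ∀ i, ∀ l ∈ w i, l.Ok k)
    (x : Option (Fin p ⊕ Fin p)) : ∀ l ∈ aw w x, l.Ok k := by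
  rcases x with _ | x | x
  · intro l hl
    exact absurd hl List.not_mem_nil
  · exact hw x
  · exact adjW_ok (hw x)

theorem ham_diffX {G : Fin m → Clause n k} {ε δ ν : ℝ} (hm : 0 < m) (hε : ε ≤ 1)
    (hG : Typ ε δ ν G) (z : Cube n) (w : Fin p → List (Letter n m Y))
    (hw : ∀ i, ∀ l ∈ w i, l.Ok k) (hr : ∀ i, (w i).length ≤ r) (a : Fin p → ℝ) (u : Sp n Y) :
    ‖lin (Ham (Letter.flt G δ z) w a) u - lin (Ham (Letter.op G z) w a) u‖ ≤
      (∑ i, |a i|) * 2 ^ (r + 2) * NR G δ r w z u := by
  refine ham_diff (q := 0) hm hε hG (NR_nonneg G δ r w z u) z w (fun i => i.elim0) hw hr a le_rfl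
    u ?_
  have key : ∀ (x : Option (Fin p ⊕ Fin p)) (i : ℕ),
      ‖nearP (hball δ z) (lin (wd (Letter.flt G δ z) ((aw w x).drop i)) u)‖ ≤
        NR G δ r w z u := by
    intro x i
    rcases Nat.lt_or_ge r i with hi | hi
    · have h1 := aw_length hr x
      have h2 : (aw w x).drop i = (aw w x).drop r := by
        rw [List.drop_eq_nil_of_le (by omega), List.drop_eq_nil_of_le h1]
      rw [h2]
      exact near_drop_le_NR G δ r w z u x le_rfl
    · exact near_drop_le_NR G δ r w z u x hi
  intro x i
  rcases x with _ | x | x | x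
  · exact key none i
  · exact key (some (Sum.inl x)) i
  · exact key (some (Sum.inr x)) i
  · exact x.elim0

theorem ER_nonneg (G : Fin m → Clause n k) (δ : ℝ) (r : ℕ) (w : Fin p → List (Letter n m Y))
    (z : Cube n) (C : List (Gate n p Y)) (u : Sp n Y) : 0 ≤ ER G δ r w z C u := by
  induction C with
  | nil => exact le_refl (0 : ℝ)
  | cons c C ih =>
    cases c with
    | fix D => exact ih
    | ev a =>
      show 0 ≤ ER G δ r w z C u + _
      refine add_nonneg ih (mul_nonneg ?_ ?_)
      · have : 0 ≤ ∑ i, |a i z| := sum_nonneg fun _ _ => abs_nonneg _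
        positivity
      · exact intervalIntegral.integral_nonneg zero_le_one fun s _ => NR_nonneg _ _ _ _ _ _

theorem circ_nil (f : Letter n m Y → Op n Y) (w : Fin p → List (Letter n m Y)) (z : Cube n) :
    circ f w z ([] : List (Gate n p Y)) = 1 := rfl

theorem circ_cons (f : Letter n m Y → Op n Y) (w : Fin p → List (Letter n m Y)) (z : Cube n)
    (c : Gate n p Y) (C : List (Gate n p Y)) :
    circ f w z (c :: C) = c.op f w z * circ f w z C := by
  unfold circ
  rw [List.map_cons, List.prod_cons]

theorem lin_circ_nil (f : Letter n m Y → Op n Y) (w : Fin p → List (Letter n m Y)) (z : Cube n)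
    (u : Sp n Y) : lin (circ f w z ([] : List (Gate n p Y))) u = u := by
  rw [circ_nil, lin_one]
  rfl

theorem lin_circ_cons (f : Letter n m Y → Op n Y) (w : Fin p → List (Letter n m Y)) (z : Cube n)
    (c : Gate n p Y) (C : List (Gate n p Y)) (u : Sp n Y) :
    lin (circ f w z (c :: C)) u = lin (c.op f w z) (lin (circ f w z C) u) := by
  rw [circ_cons, lin_mul]
  rfl

theorem norm_exp_one {A : Op n Y} (hA : A.IsHermitian) (v : Sp n Y) :
    ‖lin (NormedSpace.exp ((-Complex.I) • A)) v‖ = ‖v‖ := by
  have h := norm_exp_herm hA 1 v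
  rwa [Complex.ofReal_one, mul_one] at h

theorem norm_gate (f : Letter n m Y → Op n Y) (w : Fin p → List (Letter n m Y)) (z : Cube n)
    {c : Gate n p Y} (hc : c.Ok) (u : Sp n Y) : ‖lin (c.op f w z) u‖ ≤ ‖u‖ := by
  cases c with
  | fix D =>
    have h := norm_of_bdd zero_le_one hc u
    rwa [one_mul] at h
  | ev a => exact (norm_exp_one (ham_herm f w fun i => a i z) u).le

theorem norm_circ (f : Letter n m Y → Op n Y) (w : Fin p → List (Letter n m Y)) (z : Cube n)
    (C : List (Gate n p Y)) (hC : ∀ c ∈ C, c.Ok) (u : Sp n Y) :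
    ‖lin (circ f w z C) u‖ ≤ ‖u‖ := by
  induction C with
  | nil => rw [lin_circ_nil]
  | cons c C ih =>
    rw [lin_circ_cons]
    exact (norm_gate f w z (hC c (by simp)) _).trans (ih fun c' hc' => hC c' (by simp [hc']))

theorem continuous_NR (G : Fin m → Clause n k) (δ : ℝ) (r : ℕ)
    (w : Fin p → List (Letter n m Y)) (z : Cube n) :
    Continuous fun u : Sp n Y => NR G δ r w z u := by
  unfold NR
  refine continuous_finsetSum _ fun x _ => continuous_finsetSum _ fun i _ => ?_
  exact continuous_norm.comp ((nearP (hball δ z)).continuous_of_finiteDimensional.comp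
    (lin (wd (Letter.flt G δ z) ((aw w x).drop i))).continuous_of_finiteDimensional)

theorem circ_diff {G : Fin m → Clause n k} {ε δ ν : ℝ} (hm : 0 < m) (hε : ε ≤ 1)
    (hG : Typ ε δ ν G) (z : Cube n) (w : Fin p → List (Letter n m Y))
    (hw : ∀ i, ∀ l ∈ w i, l.Ok k) (hr : ∀ i, (w i).length ≤ r) (C : List (Gate n p Y))
    (hC : ∀ c ∈ C, c.Ok) (u : Sp n Y) :
    ‖lin (circ (Letter.flt G δ z) w z C) u - lin (circ (Letter.op G z) w z C) u‖ ≤
      ER G δ r w z C u := by
  induction C with
  | nil =>
    rw [lin_circ_nil, lin_circ_nil, sub_self, norm_zero]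
    exact le_refl (0 : ℝ)
  | cons c C ih =>
    have ih' := ih fun c' hc' => hC c' (by simp [hc'])
    have hc := hC c (by simp)
    rw [lin_circ_cons, lin_circ_cons]
    obtain ⟨v, hv⟩ : ∃ v, v = lin (circ (Letter.flt G δ z) w z C) u := ⟨_, rfl⟩
    obtain ⟨v', hv'⟩ : ∃ v', v' = lin (circ (Letter.op G z) w z C) u := ⟨_, rfl⟩
    have h1 : lin (c.op (Letter.flt G δ z) w z) v - lin (c.op (Letter.op G z) w z) v' =
        (lin (c.op (Letter.flt G δ z) w z) v - lin (c.op (Letter.op G z) w z) v) +
          lin (c.op (Letter.op G z) w z) (v - v') := by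
      rw [map_sub]
      abel
    have h2 : ‖lin (c.op (Letter.op G z) w z) (v - v')‖ ≤ ER G δ r w z C u := by
      rw [hv, hv']
      exact (norm_gate _ w z hc _).trans ih'
    rw [← hv, ← hv', h1]
    refine (norm_add_le _ _).trans ?_
    cases c with
    | fix D =>
      have h3 : lin ((Gate.fix D : Gate n p Y).op (Letter.flt G δ z) w z) v -
          lin ((Gate.fix D : Gate n p Y).op (Letter.op G z) w z) v = 0 := sub_self _
      rw [h3, norm_zero, zero_add]
      exact h2
    | ev a =>
      have h3 : ‖lin ((Gate.ev a : Gate n p Y).op (Letter.flt G δ z) w z) v -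
          lin ((Gate.ev a : Gate n p Y).op (Letter.op G z) w z) v‖ ≤
          (∑ i, |a i z|) * 2 ^ (r + 2) * ∫ s in (0 : ℝ)..1, NR G δ r w z
            (lin (NormedSpace.exp ((-Complex.I * s) •
              Ham (Letter.flt G δ z) w fun i => a i z)) v) := by
        refine (exp_diff (ham_herm (Letter.op G z) w fun i => a i z)
          (ham_herm (Letter.flt G δ z) w fun i => a i z) v).trans ?_
        rw [← intervalIntegral.integral_const_mul]
        have hcont := continuous_exp (Ham (Letter.flt G δ z) w fun i => a i z) v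
        refine intervalIntegral.integral_mono_on zero_le_one ?_ ?_ fun s _ => ?_
        · exact (continuous_norm.comp ((lin (Ham (Letter.flt G δ z) w (fun i => a i z) -
            Ham (Letter.op G z) w fun i => a i z)).continuous_of_finiteDimensional.comp
              hcont)).intervalIntegrable _ _
        · exact (continuous_const.mul ((continuous_NR G δ r w z).comp
            hcont)).intervalIntegrable _ _
        · have h4 := ham_diffX hm hε hG z w hw hr (fun i => a i z)
            (lin (NormedSpace.exp ((-Complex.I * s) •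
              Ham (Letter.flt G δ z) w fun i => a i z)) v)
          rw [lin_sub]
          exact h4
      show _ ≤ ER G δ r w z C u + (∑ i, |a i z|) * 2 ^ (r + 2) *
        ∫ s in (0 : ℝ)..1, NR G δ r w z (lin (NormedSpace.exp ((-Complex.I * s) •
          Ham (Letter.flt G δ z) w fun i => a i z)) (lin (circ (Letter.flt G δ z) w z C) u))
      rw [← hv, add_comm]
      exact add_le_add h2 h3

end Pool.Agent.H73.AX
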