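import Mathlib
import Pool.Agent.H73.AW.Stmt

/-!
Adiabatic paths and short evolutions for planted k-CNF formulas, with Hamiltonians that are
polynomials in the cost function: the definitions used by the statement.

`Cube n`, `Clause n k`, `Violates` are the ones of `Pool/Agent/H73/QA/Stmt.lean`; `Op`, `nsq`,
`Bdd`, `pviol`, `Iso` are the ones of `Pool/Agent/H73/AD/Stmt.lean`; `Letter`, `Letter.Ok`,
`Letter.op`, `Letter.av`, `Ham`, `Few`, `LowE` are the ones of `Pool/Agent/H73/AW/Stmt.lean`.
-/

namespace Pool.Agent.H73.AX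

open Finset Matrix Pool.Agent.H73.QA Pool.Agent.H73.AD Pool.Agent.H73.AW

/-- The gates of a circuit: a fixed operator, or the evolution for unit time under the Hamiltonian
whose `i`-th coefficient is `a i z`. -/
inductive Gate (n p : ℕ) (Y : Type) : Type
  | fix (D : Op n Y)
  | ev (a : Fin p → Cube n → ℝ)

variable {n k m p q : ℕ} {Y : Type} [Fintype Y] [DecidableEq Y]

/-- Fixed operators are contractions. -/
def Gate.Ok : Gate n p Y → Prop
  | .fix D => Bdd D 1
  | .ev _ => True

/-- The action of a gate: `0` for a fixed operator, the sum of the maximal absolute values of the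
coefficients for an evolution. -/
noncomputable def Gate.act : Gate n p Y → ℝ
  | .fix _ => 0
  | .ev a => ∑ i, ⨆ z, |a i z|

/-- The operator of a gate: `exp (- i H)` for an evolution, where `H` is the Hamiltonian with
coefficients `a i z`. -/
noncomputable def Gate.op (f : Letter n m Y → Op n Y) (w : Fin p → List (Letter n m Y))
    (z : Cube n) : Gate n p Y → Op n Y
  | .fix D => D
  | .ev a => NormedSpace.exp ((-Complex.I) • Ham f w fun i => a i z)

/-- The operator of a circuit. -/
noncomputable def circ (f : Letter n m Y → Op n Y) (w : Fin p → List (Letter n m Y)) (z : Cube n)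
    (C : List (Gate n p Y)) : Op n Y :=
  (C.map (Gate.op f w z)).prod

/-- The set `A` of coefficient vectors is covered by at most `2 ^ (c n)` boxes of `ℓ¹` size at most
`c`: box `j` consists of the vectors whose `i`-th entry differs from `x j i` by at most `b j i`. -/
def Cov (c : ℝ) (n : ℕ) (A : Set (Fin p → ℝ)) : Prop :=
  ∃ (N : ℕ) (x b : Fin N → Fin p → ℝ), (N : ℝ) ≤ 2 ^ (c * n) ∧ (∀ j, ∑ i, b j i ≤ c) ∧
    ∀ a ∈ A, ∃ j, ∀ i, |a i - x j i| ≤ b j i

/-- A schedule consists of `l + 1` continuous paths of Hamiltonians `Ham`, given by coefficient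
vectors `a i s ∈ A` of `ℓ¹` norm at most `Λ`; at the beginning only words without the cost are used.
It follows unit eigenvectors `ψ i s` for eigenvalues `E i s`, which are continuous along each path,
low-lying, and separated by at least `g > 2 ^ (-u n)` from the rest of the spectrum.  Between two
paths one of the circuits `T j` is applied, such that the overlap with the next eigenvector exceeds
`2 ^ (-u n) / g`.  Then every circuit `T j` maps the last eigenvector to a vector of norm at most
`2 ^ (-u n) / g` on every set `L` of assignments that violate at most the fraction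
`(1 - t) / 2 ^ k` of the clauses. -/
def Hard (α κ Λ t u : ℝ) (A : Set (Fin p → ℝ)) (G : Fin m → Clause n k)
    (w : Fin p → List (Letter n m Y)) (T : Fin q → List (Gate n p Y)) (z : Cube n) : Prop :=
  ∀ (g : ℝ) (l : ℕ) (a : ℕ → ℝ → Fin p → ℝ) (E : ℕ → ℝ → ℝ) (ψ : ℕ → ℝ → Cube n × Y → ℂ),
    (2 : ℝ) ^ (-u * n) < g → g ≤ 1 → (∀ i, a 0 0 i ≠ 0 → Letter.cost ∉ w i) →
    (∀ i ≤ l, ContinuousOn (a i) (Set.Icc 0 1) ∧ ContinuousOn (E i) (Set.Icc 0 1) ∧
      ∀ s ∈ Set.Icc (0 : ℝ) 1, a i s ∈ A ∧ ∑ j, |a i s j| ≤ Λ ∧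
        Iso (Ham (Letter.op G z) w (a i s)) g (E i s) (ψ i s) ∧
        LowE α κ (Ham (Letter.op G z) w (a i s)) (Ham Letter.av w (a i s)) (E i s)) →
    (∀ i < l, ∃ j, (2 : ℝ) ^ (-u * n) / g <
      ‖star (ψ (i + 1) 0) ⬝ᵥ circ (Letter.op G z) w z (T j) *ᵥ ψ i 1‖) →
    ∀ (j : Fin q) (L : Finset (Cube n)),
      (∀ x ∈ L, (pviol G z x : ℝ) ≤ (1 - t) * m / 2 ^ k) →
      Real.sqrt (∑ x ∈ L, ∑ y, ‖(circ (Letter.op G z) w z (T j) *ᵥ ψ l 1) (x, y)‖ ^ 2) ≤
        (2 : ℝ) ^ (-u * n) / g

end Pool.Agent.H73.AX
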